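import Pool.Agent.P8H82.WS.Stm2

set_option autoImplicit false

/-!
# Project WS, packages SEA and SED: the algebra of curves with full two-torsion, the invariant and good
reduction
-/

namespace Pool.Agent.P8H57.WS

open NumberField IsDedekindDomain
open Pool.Agent.P8H82.WS

variable {K : Type} [Field K] [NumberField K]

/-- Vieta -/
theorem vieta {E : WeierstrassCurve K} {e : Fin 3 → K} (h : Two E e) :
    E.b₂ = -4 * (e 0 + e 1 + e 2) ∧ E.b₄ = 2 * (e 0 * e 1 + e 0 * e 2 + e 1 * e 2) ∧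
      E.b₆ = -4 * (e 0 * e 1 * e 2) := by
  have r0 := h.root 0
  have r1 := h.root 1
  have r2 := h.root 2
  have h01 : e 0 - e 1 ≠ 0 := sub_ne_zero.mpr fun h' => by simpa using h.inj h'
  have h02 : e 0 - e 2 ≠ 0 := sub_ne_zero.mpr fun h' => by simpa using h.inj h'
  have h12 : e 1 - e 2 ≠ 0 := sub_ne_zero.mpr fun h' => by simpa using h.inj h'
  have p : 4 * (e 0 ^ 2 + e 0 * e 1 + e 1 ^ 2) + E.b₂ * (e 0 + e 1) + 2 * E.b₄ = 0 := by
    apply mul_left_cancel₀ h01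
    linear_combination r0 - r1
  have q : 4 * (e 0 ^ 2 + e 0 * e 2 + e 2 ^ 2) + E.b₂ * (e 0 + e 2) + 2 * E.b₄ = 0 := by
    apply mul_left_cancel₀ h02
    linear_combination r0 - r2
  have s : 4 * (e 0 + e 1 + e 2) + E.b₂ = 0 := by
    apply mul_left_cancel₀ h12
    linear_combination p - q
  have b2 : E.b₂ = -4 * (e 0 + e 1 + e 2) := by linear_combination s
  have b4 : E.b₄ = 2 * (e 0 * e 1 + e 0 * e 2 + e 1 * e 2) := by
    apply mul_left_cancel₀ (two_ne_zero (α := K))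
    linear_combination p - (e 0 + e 1) * s
  refine ⟨b2, b4, ?_⟩
  linear_combination r0 - e 0 ^ 2 * s - 2 * e 0 * b4

/-- the first invariant -/
theorem c4_eq {E : WeierstrassCurve K} {e : Fin 3 → K} (h : Two E e) :
    E.c₄ = 16 * ((e 1 - e 0) ^ 2 - (e 1 - e 0) * (e 2 - e 0) + (e 2 - e 0) ^ 2) := by
  obtain ⟨b2, b4, b6⟩ := vieta h
  unfold WeierstrassCurve.c₄
  rw [b2, b4]
  ring

/-- the second invariant -/
theorem c6_eq {E : WeierstrassCurve K} {e : Fin 3 → K} (h : Two E e) :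
    E.c₆ = 32 * (((e 1 - e 0) + (e 2 - e 0)) * (2 * (e 1 - e 0) - (e 2 - e 0)) *
      ((e 1 - e 0) - 2 * (e 2 - e 0))) := by
  obtain ⟨b2, b4, b6⟩ := vieta h
  unfold WeierstrassCurve.c₆
  rw [b2, b4, b6]
  ring

/-- the discriminant -/
theorem disc_eq {E : WeierstrassCurve K} {e : Fin 3 → K} (h : Two E e) :
    E.Δ = 16 * ((e 1 - e 0) * (e 2 - e 0) * ((e 1 - e 0) - (e 2 - e 0))) ^ 2 := by
  obtain ⟨b2, b4, b6⟩ := vieta h
  have hb := E.b_relation
  have h4 : (4 : K) ≠ 0 := by norm_num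
  apply mul_left_cancel₀ h4
  have hD : E.Δ = -E.b₂ ^ 2 * E.b₈ - 8 * E.b₄ ^ 3 - 27 * E.b₆ ^ 2 + 9 * E.b₂ * E.b₄ * E.b₆ := rfl
  have h1 : 4 * E.Δ = -E.b₂ ^ 2 * (E.b₂ * E.b₆ - E.b₄ ^ 2) - 32 * E.b₄ ^ 3 - 108 * E.b₆ ^ 2 +
      36 * E.b₂ * E.b₄ * E.b₆ := by
    rw [hD]
    linear_combination (-E.b₂ ^ 2) * hb
  rw [h1, b2, b4, b6]
  ring

theorem ne01 {E : WeierstrassCurve K} {e : Fin 3 → K} (h : Two E e) :
    e 1 - e 0 ≠ 0 ∧ e 2 - e 0 ≠ 0 ∧ (e 1 - e 0) - (e 2 - e 0) ≠ 0 := by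
  refine ⟨sub_ne_zero.mpr fun h' => by simpa using h.inj h',
    sub_ne_zero.mpr fun h' => by simpa using h.inj h', ?_⟩
  have : e 1 - e 2 ≠ 0 := sub_ne_zero.mpr fun h' => by simpa using h.inj h'
  intro h'
  apply this
  linear_combination h'

/-- package SEA -/
theorem sea : S_SEA := by
  intro K _ _ E e h
  obtain ⟨h1, h2, h3⟩ := ne01 h
  have hΔ : E.Δ ≠ 0 := by
    rw [disc_eq h]
    exact mul_ne_zero (by norm_num) (pow_ne_zero 2 (mul_ne_zero (mul_ne_zero h1 h2) h3))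
  refine ⟨hΔ, div_ne_zero h2 h1, ?_, ?_, ?_⟩
  · intro h'
    rw [div_eq_one_iff_eq h1] at h'
    apply h3
    rw [h']
    ring
  · rw [c4_eq h, disc_eq h]
    unfold jL
    set x := e 1 - e 0 with hx
    set y := e 2 - e 0 with hy
    have e1 : 1 - y / x = (x - y) / x := by field_simp
    rw [e1]
    field_simp
    ring
  · intro E' e' h' hl δ hδ
    have hx : e' 1 - e' 0 = δ * (e 1 - e 0) := by
      rw [hδ]
      field_simp
    have hy : e' 2 - e' 0 = δ * (e 2 - e 0) := by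
      have h1' := (ne01 h').1
      rw [div_eq_div_iff h1' h1] at hl
      apply mul_right_cancel₀ h1
      rw [hl, hx]
      ring
    refine ⟨?_, ?_, ?_⟩
    · rw [c4_eq h', c4_eq h, hx, hy]
      ring
    · rw [c6_eq h', c6_eq h, hx, hy]
      ring
    · rw [disc_eq h', disc_eq h, hx, hy]
      ring

/-- the invariants of an integral equation are integral -/
theorem int_inv {v : HeightOneSpectrum (𝓞 K)} {E : WeierstrassCurve K} (h : IntAt v E) :
    v.valuation K E.c₄ ≤ 1 ∧ v.valuation K E.Δ ≤ 1 := by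
  obtain ⟨h1, h2, h3, h4, h6⟩ := h
  set S := (v.valuation K).integer with hS
  have m1 : E.a₁ ∈ S := h1
  have m2 : E.a₂ ∈ S := h2
  have m3 : E.a₃ ∈ S := h3
  have m4 : E.a₄ ∈ S := h4
  have m6 : E.a₆ ∈ S := h6
  have b2 : E.b₂ ∈ S := S.add_mem (S.pow_mem m1 2) (S.mul_mem (natCast_mem S 4) m2)
  have b4 : E.b₄ ∈ S := S.add_mem (S.mul_mem (natCast_mem S 2) m4) (S.mul_mem m1 m3)
  have b6 : E.b₆ ∈ S := S.add_mem (S.pow_mem m3 2) (S.mul_mem (natCast_mem S 4) m6)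
  have b8 : E.b₈ ∈ S := by
    refine S.sub_mem (S.add_mem (S.sub_mem (S.add_mem (S.mul_mem (S.pow_mem m1 2) m6)
      (S.mul_mem (S.mul_mem (natCast_mem S 4) m2) m6)) (S.mul_mem (S.mul_mem m1 m3) m4))
      (S.mul_mem m2 (S.pow_mem m3 2))) (S.pow_mem m4 2)
  constructor
  · have : E.c₄ ∈ S := S.sub_mem (S.pow_mem b2 2) (S.mul_mem (natCast_mem S 24) b4)
    exact this
  · have : E.Δ ∈ S := S.add_mem (S.sub_mem (S.sub_mem (S.mul_mem (S.neg_mem (S.pow_mem b2 2)) b8)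
      (S.mul_mem (natCast_mem S 8) (S.pow_mem b4 3))) (S.mul_mem (natCast_mem S 27)
      (S.pow_mem b6 2))) (S.mul_mem (S.mul_mem (S.mul_mem (natCast_mem S 9) b2) b4) b6)
    exact this

/-- the invariant of an equation does not change -/
theorem j_change (C : WeierstrassCurve.VariableChange K) (E : WeierstrassCurve K) :
    (C • E).c₄ ^ 3 / (C • E).Δ = E.c₄ ^ 3 / E.Δ := by
  rw [WeierstrassCurve.variableChange_c₄, WeierstrassCurve.variableChange_Δ, mul_pow, ← pow_mul]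
  have hu : ((C.u⁻¹ : Kˣ) : K) ^ (4 * 3) ≠ 0 := pow_ne_zero _ (C.u⁻¹).ne_zero
  exact mul_div_mul_left _ _ hu

/-- package SED -/
theorem sed : S_SED := by
  intro K _ _ v E hE hS
  constructor
  · rintro ⟨C, hC, hΔ⟩
    rw [← j_change C E, map_div₀, map_pow, hΔ, div_one]
    exact pow_le_one' (int_inv hC).1 3
  · intro hj
    obtain ⟨C, hC, h⟩ := hS
    refine ⟨C, hC, ?_⟩
    rcases h with h | h
    · exact h
    · apply le_antisymm (int_inv hC).2
      rw [← j_change C E, map_div₀, map_pow, h, one_pow] at hj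
      have hne : (C • E).Δ ≠ 0 := by
        rw [WeierstrassCurve.variableChange_Δ]
        exact mul_ne_zero (pow_ne_zero _ (C.u⁻¹).ne_zero) hE
      have hpos : 0 < v.valuation K (C • E).Δ :=
        zero_lt_iff.mpr ((Valuation.ne_zero_iff _).mpr hne)
      rwa [div_le_one₀ hpos] at hj

end Pool.Agent.P8H57.WS
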