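import Pool.Agent.P8H82.WS.Stm
import Pool.Agent.P8H56.JG.Rad

set_option autoImplicit false

/-!
# Project WS, package VAL: the valuations of the invariant of a triple
-/

namespace Pool.Agent.P8H57.WS

open NumberField IsDedekindDomain
open Pool.Agent.P8H82.JG Pool.Agent.P8H82.WS Pool.Agent.P8H56.JG

variable {K : Type} [Field K] [NumberField K]

/-- the form `a² + a b + b²` of the triple -/
noncomputable def SS (t : 𝓞 K × 𝓞 K × 𝓞 K) : 𝓞 K := t.1 ^ 2 + t.1 * t.2.1 + t.2.1 ^ 2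

/-- the product of the triple -/
noncomputable def XX (t : 𝓞 K × 𝓞 K × 𝓞 K) : 𝓞 K := t.1 * t.2.1 * t.2.2

theorem jL_eq {t : 𝓞 K × 𝓞 K × 𝓞 K} (ht : Triple t) :
    jL (lamT t) = 256 * ((SS t : 𝓞 K) : K) ^ 3 / ((XX t : 𝓞 K) : K) ^ 2 := by
  obtain ⟨a, b, c⟩ := t
  have hs := ht.sum
  have hne := ht.ne
  simp only at hs hne
  have hc : c = -(a + b) := by linear_combination hs
  have ha0 : (a : K) ≠ 0 := by
    intro h
    apply hne
    have : a = 0 := by exact_mod_cast h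
    rw [this]; ring
  have hb0 : (b : K) ≠ 0 := by
    intro h
    apply hne
    have : b = 0 := by exact_mod_cast h
    rw [this]; ring
  have hc0 : (c : K) ≠ 0 := by
    intro h
    apply hne
    have : c = 0 := by exact_mod_cast h
    rw [this]; ring
  have hcK : (c : K) = -((a : K) + b) := by rw [hc]; push_cast; ring
  unfold jL lamT SS XX
  simp only
  push_cast
  have hab : ((a : K) + b) ≠ 0 := by
    intro h
    apply hc0
    rw [hcK, h, neg_zero]
  rw [hcK]
  have h1 : (1 - -(a : K) / -((a : K) + b)) = b / (a + b) := by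
    field_simp
    ring
  rw [h1]
  field_simp
  linear_combination (((a : K) * (a - (a + b)) + (a + b) ^ 2) ^ 3 * ((c : K) - (a + b))) * hcK

theorem SS_notMem {t : 𝓞 K × 𝓞 K × 𝓞 K} (ht : Triple t) (P : HeightOneSpectrum (𝓞 K))
    (hx : XX t ∈ P.asIdeal) : SS t ∉ P.asIdeal := by
  obtain ⟨a, b, c⟩ := t
  have hs := ht.sum
  have hcop := ht.cop
  unfold XX at hx
  unfold SS
  simp only at hs hcop hx ⊢
  have hc : c = -(a + b) := by linear_combination hs
  have hnot : ¬ (a ∈ P.asIdeal ∧ b ∈ P.asIdeal) := by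
    rintro ⟨h1, h2⟩
    apply P.isPrime.ne_top
    rw [eq_top_iff, ← hcop, Ideal.span_le]
    intro z hz
    simp only [Set.mem_insert_iff, Set.mem_singleton_iff] at hz
    rcases hz with rfl | rfl | rfl
    · exact h1
    · exact h2
    · rw [hc]
      exact (Ideal.neg_mem_iff _).mpr (Ideal.add_mem _ h1 h2)
  intro hS
  have hcase : a ∈ P.asIdeal ∨ b ∈ P.asIdeal ∨ c ∈ P.asIdeal := by
    rcases P.isPrime.mem_or_mem hx with h | h
    · rcases P.isPrime.mem_or_mem h with h | h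
      · exact Or.inl h
      · exact Or.inr (Or.inl h)
    · exact Or.inr (Or.inr h)
  rcases hcase with h | h | h
  · apply hnot
    refine ⟨h, ?_⟩
    apply P.isPrime.mem_of_pow_mem 2
    have : b ^ 2 = (a ^ 2 + a * b + b ^ 2) - a * (a + b) := by ring
    rw [this]
    exact Ideal.sub_mem _ hS (Ideal.mul_mem_right _ _ h)
  · apply hnot
    refine ⟨?_, h⟩
    apply P.isPrime.mem_of_pow_mem 2
    have : a ^ 2 = (a ^ 2 + a * b + b ^ 2) - b * (a + b) := by ring
    rw [this]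
    exact Ideal.sub_mem _ hS (Ideal.mul_mem_right _ _ h)
  · have ha : a ∈ P.asIdeal := by
      apply P.isPrime.mem_of_pow_mem 2
      have : a ^ 2 = (a ^ 2 + a * b + b ^ 2) + c * b := by rw [hc]; ring
      rw [this]
      exact Ideal.add_mem _ hS (Ideal.mul_mem_right _ _ h)
    apply hnot
    refine ⟨ha, ?_⟩
    have : b = -c - a := by rw [hc]; ring
    rw [this]
    exact Ideal.sub_mem _ ((Ideal.neg_mem_iff _).mpr h) ha

theorem XX_ne {t : 𝓞 K × 𝓞 K × 𝓞 K} (ht : Triple t) : XX t ≠ 0 := ht.ne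

/-- the valuation at a prime of the product -/
theorem val_mem {t : 𝓞 K × 𝓞 K × 𝓞 K} (ht : Triple t) (P : HeightOneSpectrum (𝓞 K))
    (hx : XX t ∈ P.asIdeal) :
    P.valuation K (jL (lamT t)) =
      (P.valuation K 2) ^ 8 / (P.valuation K ((XX t : 𝓞 K) : K)) ^ 2 := by
  rw [jL_eq ht]
  have h1 : P.valuation K ((SS t : 𝓞 K) : K) = 1 :=
    (P.valuation_eq_one_iff_notMem (K := K)).mpr (SS_notMem ht P hx)
  have h2 : (256 : K) = 2 ^ 8 := by norm_num
  rw [map_div₀, map_mul, map_pow, map_pow, h1, one_pow, mul_one, h2, map_pow]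

/-- the valuation at the other primes -/
theorem val_notMem {t : 𝓞 K × 𝓞 K × 𝓞 K} (ht : Triple t) (P : HeightOneSpectrum (𝓞 K))
    (hx : XX t ∉ P.asIdeal) :
    P.valuation K (jL (lamT t)) ≤ (P.valuation K 2) ^ 8 := by
  rw [jL_eq ht]
  have h1 : P.valuation K ((SS t : 𝓞 K) : K) ≤ 1 := P.valuation_le_one (SS t)
  have h3 : P.valuation K ((XX t : 𝓞 K) : K) = 1 :=
    (P.valuation_eq_one_iff_notMem (K := K)).mpr hx
  have h2 : (256 : K) = 2 ^ 8 := by norm_num
  rw [map_div₀, map_mul, map_pow, map_pow, h3, one_pow, div_one, h2, map_pow]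
  exact mul_le_of_le_one_right' (pow_le_one' h1 3)

theorem cast_two : ((2 : 𝓞 K) : K) = 2 := map_ofNat (algebraMap (𝓞 K) K) 2

theorem v_cast (P : HeightOneSpectrum (𝓞 K)) (x : 𝓞 K) :
    P.valuation K (x : K) = P.intValuation x := P.valuation_of_algebraMap x

theorem v_two (P : HeightOneSpectrum (𝓞 K)) : P.valuation K 2 = P.intValuation (2 : 𝓞 K) := by
  rw [← v_cast, cast_two]

theorem v2_le (P : HeightOneSpectrum (𝓞 K)) : P.valuation K 2 ≤ 1 := by
  rw [v_two]
  exact P.intValuation_le_one _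

theorem v2_lt (P : HeightOneSpectrum (𝓞 K)) : P.valuation K 2 < 1 ↔ (2 : 𝓞 K) ∈ P.asIdeal := by
  rw [v_two]
  exact P.intValuation_lt_one_iff_mem _

theorem eq_of_two {P Q : HeightOneSpectrum (𝓞 K)} (hP : P.asIdeal = Ideal.span {2})
    (hQ : (2 : 𝓞 K) ∈ Q.asIdeal) : Q = P := by
  apply HeightOneSpectrum.ext
  have h1 : P.asIdeal ≤ Q.asIdeal := by
    rw [hP, Ideal.span_singleton_le_iff_mem]
    exact hQ
  exact (P.isMaximal.eq_of_le Q.isPrime.ne_top h1).symm

/-- powers of the prime two -/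
theorem pow_mem {P : HeightOneSpectrum (𝓞 K)} (hP : P.asIdeal = Ideal.span {2}) (x : 𝓞 K) (n : ℕ) :
    P.valuation K (x : K) ≤ (P.valuation K 2) ^ n ↔ (2 : 𝓞 K) ^ n ∣ x := by
  have h2 : P.valuation K 2 = WithZero.exp (-1 : ℤ) := by
    rw [v_two, P.intValuation_singleton two_ne_zero hP]
  have hx : P.valuation K (x : K) = P.intValuation x := v_cast P x
  rw [h2, hx, ← WithZero.exp_nsmul]
  have h3 : (n • (-1 : ℤ)) = -(n : ℤ) := by simp
  rw [h3, P.intValuation_le_pow_iff_mem, hP, Ideal.span_singleton_pow,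
    Ideal.mem_span_singleton]

theorem pow_mul_mem {P : HeightOneSpectrum (𝓞 K)} (hP : P.asIdeal = Ideal.span {2}) (x : 𝓞 K)
    (n : ℕ) : x ∈ P.asIdeal ^ n ↔ (2 : 𝓞 K) ^ n ∣ x := by
  rw [hP, Ideal.span_singleton_pow, Ideal.mem_span_singleton]

theorem one_le_div_iff_pow {Γ : Type} [LinearOrderedCommGroupWithZero Γ] {p x : Γ} (hx : x ≠ 0)
    (n : ℕ) : 1 ≤ p ^ (2 * n) / x ^ 2 ↔ x ≤ p ^ n := by
  have hx2 : 0 < x ^ 2 := zero_lt_iff.mpr (pow_ne_zero 2 hx)
  rw [one_le_div₀ hx2, mul_comm 2 n, pow_mul]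
  exact pow_le_pow_iff_left₀ zero_le zero_le two_ne_zero

theorem one_lt_div_iff_pow {Γ : Type} [LinearOrderedCommGroupWithZero Γ] {p x : Γ} (hx : x ≠ 0)
    (n : ℕ) : 1 < p ^ (2 * n) / x ^ 2 ↔ x < p ^ n := by
  have hx2 : 0 < x ^ 2 := zero_lt_iff.mpr (pow_ne_zero 2 hx)
  rw [one_lt_div₀ hx2, mul_comm 2 n, pow_mul]
  exact pow_lt_pow_iff_left₀ zero_le zero_le two_ne_zero

theorem val_ne {t : 𝓞 K × 𝓞 K × 𝓞 K} (ht : Triple t) (P : HeightOneSpectrum (𝓞 K)) :
    P.valuation K ((XX t : 𝓞 K) : K) ≠ 0 := by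
  rw [Valuation.ne_zero_iff]
  exact_mod_cast XX_ne ht

/-- which primes divide the denominator -/
theorem den_iff {t : 𝓞 K × 𝓞 K × 𝓞 K} (ht : Triple t) {P Q : HeightOneSpectrum (𝓞 K)}
    (hP : P.asIdeal = Ideal.span {2}) (hQ : Q ≠ P) :
    1 < Q.valuation K (jL (lamT t)) ↔ XX t ∈ Q.asIdeal := by
  have h2 : Q.valuation K 2 = 1 := by
    apply le_antisymm (v2_le Q)
    rw [← not_lt, v2_lt]
    exact fun h => hQ (eq_of_two hP h)
  by_cases hx : XX t ∈ Q.asIdeal
  · refine ⟨fun _ => hx, fun _ => ?_⟩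
    rw [val_mem ht Q hx, h2, one_pow]
    have h := (one_lt_div_iff_pow (p := (1 : WithZero (Multiplicative ℤ))) (val_ne ht Q) 0).mpr
      (by
        rw [pow_zero]
        exact (Q.valuation_lt_one_iff_mem (K := K) (XX t)).mpr hx)
    simpa using h
  · refine ⟨fun h => absurd h (not_lt.mpr ?_), fun h => absurd h hx⟩
    have := val_notMem ht Q hx
    rwa [h2, one_pow] at this

theorem den_two {t : 𝓞 K × 𝓞 K × 𝓞 K} (ht : Triple t) {P : HeightOneSpectrum (𝓞 K)}
    (hP : P.asIdeal = Ideal.span {2}) :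
    1 < P.valuation K (jL (lamT t)) ↔ (32 : 𝓞 K) ∣ XX t := by
  have h32 : (32 : 𝓞 K) = 2 ^ 5 := by norm_num
  have h16 : (2 : 𝓞 K) ∈ P.asIdeal := by rw [hP]; exact Ideal.mem_span_singleton_self _
  by_cases hx : XX t ∈ P.asIdeal
  · rw [val_mem ht P hx, one_lt_div_iff_pow (val_ne ht P) 4, h32, ← pow_mem hP]
    have h2 : P.valuation K 2 = WithZero.exp (-1 : ℤ) := by
      rw [v_two, P.intValuation_singleton two_ne_zero hP]
    obtain ⟨m, hm⟩ : ∃ m : ℤ, P.valuation K ((XX t : 𝓞 K) : K) = WithZero.exp m :=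
      ⟨WithZero.log (P.valuation K ((XX t : 𝓞 K) : K)), (WithZero.exp_log (val_ne ht P)).symm⟩
    rw [hm, h2, ← WithZero.exp_nsmul, ← WithZero.exp_nsmul, WithZero.exp_lt_exp,
      WithZero.exp_le_exp]
    simp only [nsmul_eq_mul]
    push_cast
    omega
  · refine ⟨fun h => absurd h (not_lt.mpr ((val_notMem ht P hx).trans ?_)), fun h => absurd ?_ hx⟩
    · exact pow_le_one' (v2_le P) 8
    · obtain ⟨y, hy⟩ := h
      rw [hy, h32]
      exact Ideal.mul_mem_right _ _ (Ideal.pow_mem_of_mem _ h16 5 (by norm_num))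

theorem val (H : S_TWO) : S_VAL := by
  intro K _ _ σ τ hG t ht
  obtain ⟨P, hP, hN⟩ := H K σ τ hG
  have h16 : (16 : 𝓞 K) = 2 ^ 4 := by norm_num
  have h32 : (32 : 𝓞 K) = 2 ^ 5 := by norm_num
  have h2P : (2 : 𝓞 K) ∈ P.asIdeal := by rw [hP]; exact Ideal.mem_span_singleton_self _
  have hX : t.1 * t.2.1 * t.2.2 = XX t := rfl
  have hXne := XX_ne ht
  rw [hX]
  have hmem : ∀ n : ℕ, n ≠ 0 → (2 : 𝓞 K) ^ n ∣ XX t → XX t ∈ P.asIdeal := by
    rintro n hn ⟨y, hy⟩
    rw [hy]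
    exact Ideal.mul_mem_right _ _ (Ideal.pow_mem_of_mem _ h2P n (Nat.pos_of_ne_zero hn))
  refine ⟨?_, ?_, ?_, ?_⟩
  · -- Ord2
    have h1 : Ord2 (jL (lamT t)) ↔ 1 ≤ P.valuation K (jL (lamT t)) := by
      constructor
      · intro h
        exact h P ((v2_lt P).mpr h2P)
      · intro h Q hQ
        rw [eq_of_two hP ((v2_lt Q).mp hQ)]
        exact h
    rw [h1]
    by_cases hx : XX t ∈ P.asIdeal
    · rw [val_mem ht P hx, one_le_div_iff_pow (val_ne ht P) 4, h16, ← pow_mem hP]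
    · refine ⟨fun h => absurd h (not_le.mpr ((val_notMem ht P hx).trans_lt ?_)),
        fun h => absurd (hmem 4 (by norm_num) (h16 ▸ h)) hx⟩
      exact pow_lt_one₀ zero_le ((v2_lt P).mpr h2P) (by norm_num)
  · -- the conductor, 32
    intro h
    unfold condJ rad
    apply finprod_congr
    intro Q
    have hiff : 1 < Q.valuation K (jL (lamT t)) ↔ t.1 * t.2.1 * t.2.2 ∈ Q.asIdeal := by
      by_cases hQ : Q = P
      · subst hQ
        rw [den_two ht hP, hX]
        exact ⟨fun _ => hmem 5 (by norm_num) (h32 ▸ h), fun _ => h⟩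
      · rw [den_iff ht hP hQ, hX]
    exact finprod_congr_Prop (propext hiff) fun _ => rfl
  · -- the conductor, 16
    intro h1 h2
    have hxP : XX t ∈ P.asIdeal := hmem 4 (by norm_num) (h16 ▸ h1)
    set s : Set (HeightOneSpectrum (𝓞 K)) := {Q | 1 < Q.valuation K (jL (lamT t))} with hs
    have hPs : P ∉ s := by
      rw [hs, Set.mem_ofPred_eq, den_two ht hP]
      exact h2
    have hins : pr (XX t) = insert P s := by
      ext Q
      rw [Set.mem_insert_iff]
      by_cases hQ : Q = P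
      · subst hQ
        exact ⟨fun _ => Or.inl rfl, fun _ => hxP⟩
      · rw [hs, Set.mem_ofPred_eq, den_iff ht hP hQ]
        exact ⟨fun h => Or.inr h, fun h => h.resolve_left hQ⟩
    have hfin : s.Finite := by
      have := pr_fin hXne
      rw [hins] at this
      exact this.subset (Set.subset_insert _ _)
    have hrad : rad t = ∏ᶠ (Q : HeightOneSpectrum (𝓞 K)) (_ : Q ∈ pr (XX t)),
        (Ideal.absNorm Q.asIdeal : ℝ) := rfl
    have hcon : condJ (jL (lamT t)) = ∏ᶠ (Q : HeightOneSpectrum (𝓞 K)) (_ : Q ∈ s),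
        (Ideal.absNorm Q.asIdeal : ℝ) := rfl
    rw [hrad, hcon, hins, finprod_mem_insert _ hPs hfin, hN]
    push_cast
    ring
  · -- the repeated part
    intro w hw
    have hw' : w * radI (XX t) = Ideal.span {XX t} := hw
    have hsp : Ideal.span {XX t} ≠ ⊥ := by simpa using hXne
    have hw0 : w ≠ ⊥ := by
      rintro rfl
      apply hsp
      rw [← hw']
      simp
    have key : ∀ n : ℕ, ((2 : 𝓞 K) ^ (n + 2) ∣ XX t ↔ w ≤ Ideal.span {(2 : 𝓞 K) ^ (n + 1)}) := by
      intro n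
      classical
      have h1 : (2 : 𝓞 K) ^ (n + 2) ∣ XX t ↔ n + 2 ≤ ord P (Ideal.span {XX t}) := by
        rw [← mem_pow_iff P hXne, pow_mul_mem hP]
      have h2 : w ≤ Ideal.span {(2 : 𝓞 K) ^ (n + 1)} ↔ n + 1 ≤ ord P w := by
        rw [le_ord_iff P hw0, hP, Ideal.span_singleton_pow]
      rw [h1, h2, ← hw', ord_mul P hw0 (radI_ne hXne), ord_radI P hXne]
      by_cases hx : XX t ∈ P.asIdeal
      · rw [if_pos hx]
        omega
      · rw [if_neg hx]
        have h3 : ord P w = 0 := by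
          by_contra hne
          have h4 : 1 ≤ ord P w := Nat.one_le_iff_ne_zero.mpr hne
          rw [le_ord_iff P hw0, pow_one] at h4
          apply hx
          have h5 : Ideal.span {XX t} ≤ P.asIdeal := by
            rw [← hw']
            exact Ideal.mul_le_left.trans h4
          exact h5 (Ideal.mem_span_singleton_self _)
        omega
    have e8 : (8 : 𝓞 K) = 2 ^ (2 + 1) := by norm_num
    have e16 : (16 : 𝓞 K) = 2 ^ (3 + 1) := by norm_num
    refine ⟨?_, ?_⟩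
    · rw [e8, ← key 2, h16]
    · rw [e16, ← key 3, h32]

end Pool.Agent.P8H57.WS
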